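import Mathlib

set_option autoImplicit false
set_option maxSynthPendingDepth 3

namespace Pool.Agent.Results.MP_ae31bd_an.Counter

open scoped TensorProduct

/-- Weak amenability: every continuous derivation `A → A*` is inner, for the dual actions
`(a • f)(c) = f (c * a)` and `(f • b)(c) = f (b * c)`. -/
def WeaklyAmenable (A : Type) [NormedRing A] [NormedAlgebra ℂ A] : Prop :=
  ∀ D : A →L[ℂ] (A →L[ℂ] ℂ), (∀ a b c : A, D (a * b) c = D b (c * a) + D a (b * c)) →
    ∃ f : A →L[ℂ] ℂ, ∀ a c : A, D a c = f (c * a) - f (a * c)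

/-- The multiplication map `B ⊗ Bᵐᵒᵖ → B`, `a ⊗ b ↦ a b`. -/
noncomputable def piMap (B : Type) [Ring B] [Algebra ℂ B] : B ⊗[ℂ] Bᵐᵒᵖ →ₗ[ℂ] B :=
  TensorProduct.lift ((LinearMap.mul ℂ B).compl₂
    (MulOpposite.opLinearEquiv ℂ (M := B)).symm.toLinearMap)

/-- A subspace of an algebra is idempotent if it is the span of products of its elements. -/
def Idem {E : Type} [Ring E] [Algebra ℂ E] (I : Submodule ℂ E) : Prop :=
  I = Submodule.span ℂ {z | ∃ x ∈ I, ∃ y ∈ I, z = x * y}

/-- The diagonal ideal of `B ⊗ Bᵐᵒᵖ` is idempotent. -/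
def DiagIdem (B : Type) [Ring B] [Algebra ℂ B] : Prop :=
  Idem (E := B ⊗[ℂ] Bᵐᵒᵖ) (LinearMap.ker (piMap B))

/-- The enveloping algebra of the unitization. -/
abbrev Env (A : Type) [Ring A] [Algebra ℂ A] : Type :=
  Unitization ℂ A ⊗[ℂ] (Unitization ℂ A)ᵐᵒᵖ

/-- The multiplication map of the unitization. -/
noncomputable abbrev piPlus (A : Type) [Ring A] [Algebra ℂ A] : Env A →ₗ[ℂ] Unitization ℂ A :=
  piMap (Unitization ℂ A)

section general

variable {A : Type} [Ring A] [Algebra ℂ A]

lemma piPlus_tmul (a : Unitization ℂ A) (b : (Unitization ℂ A)ᵐᵒᵖ) :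
    piPlus A (a ⊗ₜ b) = a * b.unop := by
  simp [piMap]

lemma piPlus_mul (x y : Env A) (hy : piPlus A y = 0) : piPlus A (x * y) = 0 := by
  have key : ∀ (a : Unitization ℂ A) (b : (Unitization ℂ A)ᵐᵒᵖ) (y : Env A),
      piPlus A ((a ⊗ₜ b) * y) = a * piPlus A y * b.unop := by
    intro a b y
    induction y using TensorProduct.induction_on with
    | zero => simp
    | tmul c d => simp [Algebra.TensorProduct.tmul_mul_tmul, piPlus_tmul, mul_assoc]
    | add y z hy hz => simp [mul_add, add_mul, hy, hz]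
  induction x using TensorProduct.induction_on with
  | zero => simp
  | tmul a b => rw [key, hy]; simp
  | add x z hx hz => simp [add_mul, hx, hz]

theorem idem (u v : A) (hu : u * u = 0) (huv : u * v + v * u = 1) :
    LinearMap.ker (piPlus A) = Submodule.span ℂ
      {z | ∃ x ∈ LinearMap.ker (piPlus A), ∃ y ∈ LinearMap.ker (piPlus A), z = x * y} := by
  set J := Submodule.span ℂ
      {z | ∃ x ∈ LinearMap.ker (piPlus A), ∃ y ∈ LinearMap.ker (piPlus A), z = x * y} with hJ
  have hprod : ∀ x y : Env A, piPlus A x = 0 → piPlus A y = 0 → x * y ∈ J := fun x y hx hy =>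
    Submodule.subset_span ⟨x, hx, y, hy, rfl⟩
  have hleft : ∀ w z : Env A, z ∈ J → w * z ∈ J := by
    intro w z hz
    induction hz using Submodule.span_induction with
    | mem z hz =>
      obtain ⟨x, hx, y, hy, rfl⟩ := hz
      rw [← mul_assoc]; exact hprod _ _ (piPlus_mul _ _ hx) hy
    | zero => simp
    | add a b _ _ ha hb => rw [mul_add]; exact J.add_mem ha hb
    | smul c a _ ha => rw [mul_smul_comm]; exact J.smul_mem c ha
  let l : Unitization ℂ A → Env A := fun a => a ⊗ₜ 1
  let r : Unitization ℂ A → Env A := fun a => 1 ⊗ₜ MulOpposite.op a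
  have hδ : ∀ a, piPlus A (l a - r a) = 0 := fun a => by simp [l, r, piPlus_tmul]
  have hll : ∀ a b, l (a * b) = l a * l b := fun a b => by
    simp [l, Algebra.TensorProduct.tmul_mul_tmul]
  have hlr : ∀ a b, l a * r b = r b * l a := fun a b => by
    simp [l, r, Algebra.TensorProduct.tmul_mul_tmul]
  have hrr : ∀ a b, r (a * b) = r b * r a := fun a b => by
    simp [r, Algebra.TensorProduct.tmul_mul_tmul]
  have hsub : ∀ a b, l (a - b) = l a - l b := fun a b => by simp [l, TensorProduct.sub_tmul]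
  have hadd : ∀ a b, l (a + b) = l a + l b := fun a b => by simp [l, TensorProduct.add_tmul]
  have hcomm : ∀ a b x, piPlus A x = 0 → l (a * b - b * a) * x ∈ J := by
    intro a b x hx
    have e : l (a * b - b * a) * x = (l a - r a) * (l b * x) - l b * ((l a - r a) * x) := by
      rw [hsub, hll, hll]
      have := hlr b a
      simp only [sub_mul, mul_sub, ← mul_assoc, this]
      abel
    rw [e]
    exact J.sub_mem (hprod _ _ (hδ a) (piPlus_mul _ _ hx)) (hleft _ _ (hprod _ _ (hδ a) hx))
  have hu' : u * v * u - u * (u * v) = u := by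
    have h1 : u * v * u = u * (v * u) := mul_assoc _ _ _
    have h2 : v * u = 1 - u * v := by rw [← huv]; abel
    rw [h1, h2, ← mul_assoc u u v, hu, mul_sub, ← mul_assoc u u v, hu]; simp
  have hU : ∀ x, piPlus A x = 0 → l (u : Unitization ℂ A) * x ∈ J := by
    intro x hx
    have := hcomm ((u * v : A) : Unitization ℂ A) (u : Unitization ℂ A) x hx
    rwa [← Unitization.inr_mul, ← Unitization.inr_mul, ← Unitization.inr_sub ℂ, hu'] at this
  have hE : ∀ x, piPlus A x = 0 → l ((1 : A) : Unitization ℂ A) * x ∈ J := by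
    intro x hx
    rw [← huv, Unitization.inr_add, Unitization.inr_mul, Unitization.inr_mul, hadd, hll, hll,
      add_mul, mul_assoc, mul_assoc]
    exact J.add_mem (hU _ (piPlus_mul _ _ hx)) (hleft _ _ (hU _ hx))
  have hA : ∀ (a : A) x, piPlus A x = 0 → l (a : Unitization ℂ A) * x ∈ J := by
    intro a x hx
    rw [← mul_one a, Unitization.inr_mul, hll, mul_assoc]
    exact hleft _ _ (hE _ hx)
  have hδA : ∀ a : A, l (a : Unitization ℂ A) - r (a : Unitization ℂ A) ∈ J := by
    intro a
    set e : Unitization ℂ A := ((1 : A) : Unitization ℂ A) with he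
    have h1 : (a : Unitization ℂ A) = e * a := by rw [he, ← Unitization.inr_mul, one_mul]
    have h2 : l (e * a) - r (e * a)
        = l e * (l a - r a) + (l a * (l e - r e) - (l a - r a) * (l e - r e)) := by
      rw [hll, hrr]
      have := hlr e a
      simp only [sub_mul, mul_sub, this]
      abel
    rw [h1, h2]
    exact J.add_mem (hE _ (hδ _)) (J.sub_mem (hA _ _ (hδ _)) (hprod _ _ (hδ _) (hδ _)))
  have hδJ : ∀ b : Unitization ℂ A, l b - r b ∈ J := by
    intro b
    have h1 : l b - r b = l (b.snd : Unitization ℂ A) - r (b.snd : Unitization ℂ A) := by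
      conv_lhs => rw [← Unitization.inl_fst_add_inr_snd_eq b]
      have h2 : (Unitization.inl b.fst : Unitization ℂ A) = b.fst • (1 : Unitization ℂ A) := by
        ext <;> simp
      simp only [l, r, h2, TensorProduct.add_tmul, MulOpposite.op_add, TensorProduct.tmul_add,
        MulOpposite.op_smul, MulOpposite.op_one, TensorProduct.tmul_smul, TensorProduct.smul_tmul']
      abel
    rw [h1]; exact hδA _
  have hall : ∀ z : Env A, l (piPlus A z) - z ∈ J := by
    intro z
    induction z using TensorProduct.induction_on with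
    | zero => simp [l]
    | tmul a b =>
      have : l (piPlus A (a ⊗ₜ b)) - a ⊗ₜ b = l a * (l b.unop - r b.unop) := by
        simp [l, r, piPlus_tmul, mul_sub, Algebra.TensorProduct.tmul_mul_tmul]
      rw [this]; exact hleft _ _ (hδJ _)
    | add x y hx hy =>
      have : l (piPlus A (x + y)) - (x + y) = (l (piPlus A x) - x) + (l (piPlus A y) - y) := by
        rw [map_add, hadd]; abel
      rw [this]; exact J.add_mem hx hy
  apply le_antisymm
  · intro z hz
    have := hall z
    rw [LinearMap.mem_ker.1 hz] at this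
    simpa [l] using this
  · rw [hJ, Submodule.span_le]
    rintro z ⟨x, -, y, hy, rfl⟩
    exact piPlus_mul _ _ hy

end general

lemma central_of_wa {A : Type} [NormedRing A] [NormedAlgebra ℂ A] [FiniteDimensional ℂ A]
    (H : WeaklyAmenable A) (B : A →ₗ[ℂ] A →ₗ[ℂ] ℂ)
    (hB : ∀ a b c : A, B (a * b) c = B b (c * a) + B a (b * c)) (a : A) : B a 1 = 0 := by
  let D : A →L[ℂ] (A →L[ℂ] ℂ) := LinearMap.toContinuousLinearMap
    ((LinearMap.toContinuousLinearMap : (A →ₗ[ℂ] ℂ) ≃ₗ[ℂ] (A →L[ℂ] ℂ)).toLinearMap ∘ₗ B)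
  obtain ⟨f, hf⟩ := H D hB
  have h1 := hf a 1
  rw [one_mul, mul_one, sub_self] at h1
  exact h1

/-- Two by two matrices over the dual numbers. -/
abbrev M : Type := Matrix (Fin 2) (Fin 2) (DualNumber ℂ)

/-- The bilinear form behind the outer derivation. -/
noncomputable def form : M →ₗ[ℂ] M →ₗ[ℂ] ℂ :=
  LinearMap.mk₂ ℂ (fun u w => ∑ i, ∑ j, (u i j).snd * (w j i).fst)
    (fun a b c => by simp [Fin.sum_univ_two]; ring)
    (fun a b c => by simp [Fin.sum_univ_two]; ring)
    (fun a b c => by simp [Fin.sum_univ_two]; ring)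
    (fun a b c => by simp [Fin.sum_univ_two]; ring)

theorem result : ∃ (A : Type) (_ : NormedRing A) (_ : NormedAlgebra ℂ A) (_ : CompleteSpace A)
    (_ : FiniteDimensional ℂ A), ¬ WeaklyAmenable A ∧ DiagIdem (Unitization ℂ A) := by
  let _ : NormedRing M := Matrix.linftyOpNormedRing
  let _ : NormedAlgebra ℂ M := Matrix.linftyOpNormedAlgebra
  have : FiniteDimensional ℂ (DualNumber ℂ) := inferInstanceAs (Module.Finite ℂ (ℂ × ℂ))
  have hfd : FiniteDimensional ℂ M := inferInstance
  refine ⟨M, inferInstance, inferInstance, FiniteDimensional.complete ℂ M, hfd, ?_, ?_⟩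
  · intro H
    have h1 := central_of_wa H form (by
      intro (a : M) (b : M) (c : M)
      change form (a * b) c = form b (c * a) + form a (b * c)
      simp only [form, LinearMap.mk₂_apply, Matrix.mul_apply, Fin.sum_univ_two,
        TrivSqZeroExt.fst_add, TrivSqZeroExt.snd_add, TrivSqZeroExt.fst_mul, DualNumber.snd_mul]
      ring) !![DualNumber.eps, 0; 0, 0]
    have h2 : form !![DualNumber.eps, 0; 0, 0] 1 = 0 := h1
    simp [form, Fin.sum_univ_two] at h2
  · apply idem (!![0, 1; 0, 0] : M) !![0, 0; 1, 0]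
    · ext i j <;> fin_cases i <;> fin_cases j <;> simp [Matrix.mul_apply, Fin.sum_univ_two]
    · ext i j <;> fin_cases i <;> fin_cases j <;> simp [Matrix.mul_apply, Fin.sum_univ_two]

end Pool.Agent.Results.MP_ae31bd_an.Counter
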